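import Pool.Agent.H60.KSM.Iid
import Pool.Agent.H62.OWN.Jvc

/-!
# Pairs of samples which are independent given a label

`iid_two`: two of the samples have the law of the pairs. `iid_pairs`: if a relation of two samples
has small probability, it holds for no pair of the samples, outside a small event.
-/

set_option autoImplicit false

namespace Pool.PLN26

open Finset Real
open Pool.Agent.H49.Ent Pool.Agent.H32.Dense Pool.STK Pool.KA Pool.KSAT Pool.K2S Pool.PB Pool.S6C
open Pool.KSM (iid iid_nonneg iid_pos iid_zero iid_marg iid_law iid_resample)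
open Pool.KM7 (P2 P2_isLaw P2_swap)

variable {Ω Ξ : Type} [Fintype Ω] {n : ℕ} {P : Ω → ℝ} {W : Ω → Ξ}

/-- Sums over the pairs. -/
theorem P2_sum (P : Ω → ℝ) (W : Ω → Ξ) (f : Ω × Ω → ℝ) :
    ∑ x, P2 P W x * f x = ∑ ω, P ω * ∑ v, cond P W (W ω) v * f (ω, v) := by
  classical
  rw [Fintype.sum_prod_type]
  refine Finset.sum_congr rfl fun ω _ => ?_
  rw [Finset.mul_sum]
  refine Finset.sum_congr rfl fun v _ => ?_
  show (if W ω = W v then P ω * P v / law P W (W ω) else 0) * f (ω, v) = _
  unfold Pool.Agent.H49.Ent.cond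
  by_cases h : W ω = W v
  · rw [if_pos h, if_pos h.symm]
    ring
  · rw [if_neg h, if_neg (fun h' => h h'.symm)]
    ring

theorem marg_sum {Ω' : Type} [Fintype Ω'] {q : Ω' → ℝ} {p : Ω → ℝ} {pr : Ω' → Ω}
    (h : Marg q p pr) (f : Ω → ℝ) : ∑ w, q w * f (pr w) = ∑ ω, p ω * f ω := by
  classical
  have h1 : ∀ ω, p ω * f ω = ∑ w, (if pr w = ω then q w * f ω else 0) := by
    intro ω
    rw [← h ω, Finset.sum_mul]
    refine Finset.sum_congr rfl fun w _ => ?_
    split_ifs <;> simp
  rw [Finset.sum_congr rfl fun ω _ => h1 ω, Finset.sum_comm]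
  refine Finset.sum_congr rfl fun w _ => ?_
  rw [Finset.sum_ite_eq]
  simp

/-- The last sample is resampled. -/
theorem iid_two_aux (hp : ∀ ω, 0 ≤ P ω) (i : Fin n) (j : Fin (n + 1)) (hij : j ≠ i.succ)
    (f : Ω × Ω → ℝ) :
    ∑ w, iid P W n w * f (w j, w i.succ) = ∑ x, P2 P W x * f x := by
  classical
  rw [iid_resample (W := W) hp i (fun w => f (w j, w i.succ)), P2_sum,
    ← marg_sum (iid_marg (W := W) (n := n) hp j)
      (fun ω => ∑ v, cond P W (W ω) v * f (ω, v))]
  refine Finset.sum_congr rfl fun w _ => ?_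
  rcases (iid_nonneg (W := W) hp w).eq_or_lt with h | h
  · rw [← h, zero_mul, zero_mul]
  · congr 1
    refine Finset.sum_congr rfl fun v _ => ?_
    rw [(iid_pos hp h j).2, Function.update_self, Function.update_of_ne hij]

/-- **Two of the samples have the law of the pairs.** -/
theorem iid_two_sum (hp : ∀ ω, 0 ≤ P ω) {i j : Fin (n + 1)} (hij : i ≠ j) (f : Ω × Ω → ℝ) :
    ∑ w, iid P W n w * f (w i, w j) = ∑ x, P2 P W x * f x := by
  by_cases hj : j = 0
  · have hi : i ≠ 0 := fun h => hij (h.trans hj.symm)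
    obtain ⟨k, rfl⟩ := Fin.exists_succ_eq.2 hi
    have h1 := iid_two_aux (W := W) hp k j (fun h => hij h.symm) (fun x => f x.swap)
    refine h1.trans ?_
    rw [← Equiv.sum_comp (Equiv.prodComm Ω Ω)]
    refine Finset.sum_congr rfl fun x _ => ?_
    show P2 P W x.swap * f x.swap.swap = _
    rw [P2_swap, Prod.swap_swap]
  · obtain ⟨k, rfl⟩ := Fin.exists_succ_eq.2 hj
    exact iid_two_aux (W := W) hp k i hij f

theorem iid_two (hp : ∀ ω, 0 ≤ P ω) {i j : Fin (n + 1)} (hij : i ≠ j) :
    Marg (iid P W n) (P2 P W) (fun w => (w i, w j)) := by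
  classical
  intro x
  have h1 := iid_two_sum (W := W) hp hij (fun y => if y = x then (1 : ℝ) else 0)
  have h2 : ∑ y, P2 P W y * (if y = x then (1 : ℝ) else 0) = P2 P W x := by
    rw [Finset.sum_eq_single x]
    · rw [if_pos rfl, mul_one]
    · intro y _ hy
      rw [if_neg hy, mul_zero]
    · intro h
      exact absurd (Finset.mem_univ x) h
  rw [h2] at h1
  rw [← h1]
  refine Finset.sum_congr rfl fun w _ => ?_
  split_ifs <;> simp

/-- The probability of a relation of two of the samples. -/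
theorem iid_rel (hp : ∀ ω, 0 ≤ P ω) {i j : Fin (n + 1)} (hij : i ≠ j) (R : Ω → Ω → Prop) :
    Pe (iid P W n) (fun w => R (w i) (w j)) = Pe (P2 P W) (fun x => R x.1 x.2) := by
  classical
  have h1 := iid_two_sum (W := W) hp hij (fun y => if R y.1 y.2 then (1 : ℝ) else 0)
  rw [Pool.JVE.pe_sum, Pool.JVE.pe_sum]
  refine (Finset.sum_congr rfl fun w _ => ?_).trans (h1.trans (Finset.sum_congr rfl fun x _ => ?_))
  · split_ifs <;> simp
  · split_ifs <;> simp

theorem pe_le_of {Ω' : Type} [Fintype Ω'] {q : Ω' → ℝ} (hq : ∀ ω, 0 ≤ q ω) {A B : Ω' → Prop}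
    (h : ∀ ω, A ω → B ω) : Pe q A ≤ Pe q B := by
  classical
  rw [Pool.JVE.pe_sum, Pool.JVE.pe_sum]
  refine Finset.sum_le_sum fun ω _ => ?_
  by_cases h1 : A ω
  · rw [if_pos h1, if_pos (h ω h1)]
  · rw [if_neg h1]
    split_ifs
    exacts [hq ω, le_rfl]

/-- The union bound over a finite set. -/
theorem pe_union {Ω' ι : Type} [Fintype Ω'] {q : Ω' → ℝ} (hq : ∀ ω, 0 ≤ q ω) (s : Finset ι)
    (A : ι → Ω' → Prop) : Pe q (fun ω => ∃ i ∈ s, A i ω) ≤ ∑ i ∈ s, Pe q (A i) := by
  classical
  simp only [Pool.JVE.pe_sum]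
  rw [Finset.sum_comm]
  refine Finset.sum_le_sum fun ω _ => ?_
  by_cases h : ∃ i ∈ s, A i ω
  · rw [if_pos h]
    obtain ⟨i, hi, hA⟩ := h
    refine le_trans ?_ (Finset.single_le_sum (f := fun i => if A i ω then q ω else 0)
      (fun i _ => ?_) hi)
    · rw [if_pos hA]
    · split_ifs
      exacts [hq ω, le_rfl]
  · rw [if_neg h]
    refine Finset.sum_nonneg fun i _ => ?_
    split_ifs
    exacts [hq ω, le_rfl]

/-- **A relation of two samples with small probability** holds for no pair of the samples, outside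
a small event. -/
theorem iid_pairs (hp : ∀ ω, 0 ≤ P ω) (R : Ω → Ω → Prop) {δ : ℝ}
    (h : Pe (P2 P W) (fun x => R x.1 x.2) ≤ δ) :
    Pe (iid P W n) (fun w => ∃ i j : Fin (n + 1), i ≠ j ∧ R (w i) (w j)) ≤ (n + 1) ^ 2 * δ := by
  classical
  have hδ : 0 ≤ δ := by
    refine le_trans ?_ h
    rw [Pool.JVE.pe_sum]
    refine Finset.sum_nonneg fun x _ => ?_
    split_ifs
    · exact glue_nonneg hp hp x
    · exact le_rfl
  have h1 := pe_union (q := iid P W n) (iid_nonneg hp)
    (Finset.univ : Finset (Fin (n + 1) × Fin (n + 1)))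
    (fun x w => x.1 ≠ x.2 ∧ R (w x.1) (w x.2))
  refine le_trans (pe_le_of (iid_nonneg hp) ?_) (h1.trans ?_)
  · rintro w ⟨i, j, hij, hR⟩
    exact ⟨(i, j), Finset.mem_univ _, hij, hR⟩
  · calc ∑ x : Fin (n + 1) × Fin (n + 1), Pe (iid P W n)
          (fun w => x.1 ≠ x.2 ∧ R (w x.1) (w x.2)) ≤
        ∑ _x : Fin (n + 1) × Fin (n + 1), δ := by
          refine Finset.sum_le_sum fun x _ => ?_
          by_cases hx : x.1 = x.2
          · refine le_trans (le_of_eq ?_) hδ
            rw [Pool.JVE.pe_sum]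
            refine Finset.sum_eq_zero fun w _ => ?_
            rw [if_neg]
            exact fun h => h.1 hx
          · refine le_trans (pe_le_of (iid_nonneg hp) fun w hw => hw.2) ?_
            rw [iid_rel hp hx R]
            exact h
      _ = (n + 1) ^ 2 * δ := by
          rw [Finset.sum_const, Finset.card_univ, Fintype.card_prod, Fintype.card_fin,
            nsmul_eq_mul]
          push_cast
          ring

end Pool.PLN26
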