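import Pool.Agent.H26.PLN.Cor
import Pool.Agent.H1.PLN.Stm

/-!
# Times, slopes and planes: `TimS`, `SlpS`, `PlnS`
-/

set_option autoImplicit false

namespace Pool.PLN

open Finset Real MvPolynomial
open Pool.Agent.H49.Ent Pool.Agent.H32.Dense Pool.STK Pool.KA Pool.KSAT Pool.K2S Pool.PB Pool.STAT
  Pool.GEN Pool.S6C Pool.M3F Pool.CLO37
open Pool.PLN26
open Pool.GRW (TmWn)
open Pool.LBT (ThrOf)

variable {m : ℕ} {S : PCl m}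

/-- **The times** are separated. -/
theorem timS {w0 : ℝ} (hS : TmWn S w0) (hw : 0 ≤ w0) (hw1 : w0 < 1) {b c₀ : ℝ} (hb : 0 < b)
    (hc : 0 < c₀) : TimS S w0 b c₀ := timC hS hw hw1 hb hc

/-- **The slopes are bounded.** -/
theorem slpS (h3 : ThrStmt) {c : ℕ → Fin m} {N : Nums} {K : ℕ} {Nn : ℚ → ℚ → ℝ}
    (hA : ActB Nn S (c 0))
    (hN : ∀ g₁ : ℝ, 0 < g₁ → ∃ g : ℚ, 0 < g ∧ (g : ℝ) ≤ g₁ ∧ 0 < Nn 0 g) {b ε' c₀ : ℝ}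
    (hb : 0 < b) (hε : 0 < ε') (hc : 0 < c₀)
    (hE : ∀ c₁ : ℝ, 0 < c₁ → EzS S c N K (b / 2) c₁) : SlpS S c N K b ε' c₀ := by
  obtain ⟨φ, hφ, τ₁, hτ₁, J₁, h1⟩ := hE (c₀ / 2) (by linarith)
  obtain ⟨τ₂, hτ₂, J₂, h2⟩ := slpC h3 hA hN hb hε hc
  refine ⟨φ, hφ, min τ₁ τ₂, lt_min hτ₁ hτ₂, max J₁ J₂, ?_⟩
  intro J hJ F A hF d R hR
  exact h2 J ((le_max_right _ _).trans hJ) F A (S.mono (min_le_right _ _) hF) (fun ω => d.Ez ω) R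
    hR (h1 J ((le_max_left _ _).trans hJ) F A (S.mono (min_le_left _ _) hF) d)

/-- The labels of a member, with a larger error. -/
noncomputable def upD {N : Nums} {φ φ' : ℝ} {K J : ℕ} {F : Fam m J} {c : ℕ → Fin m}
    {A : F.Ω → Prop} (h : φ ≤ φ') (d : Dat N φ K F c A) : Dat N φ' K F c A :=
  have h1 : φ * J ≤ φ' * J := mul_le_mul_of_nonneg_right h (Nat.cast_nonneg J)
  { V := d.V, V0 := d.V0, z := d.z, z' := d.z', P := d.P, g' := d.g', sg := d.sg, zz := d.zz,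
    zz' := d.zz', P0 := d.P0, g0' := d.g0', sg0 := d.sg0, pr := d.pr, kap := d.kap, L := d.L,
    G0 := d.G0, a := d.a, lab := d.lab, lab0 := d.lab0, prz := d.prz, dg := d.dg, dg0 := d.dg0,
    num := fun l hl => (d.num l hl).trans h1
    num0 := fun l hl => (d.num0 l hl).trans h1
    nums := d.nums.trans h1
    nums0 := d.nums0.trans h1
    numz := d.numz.trans h1
    top := d.top, top0 := d.top0, srt := d.srt, srt0 := d.srt0, win := d.win, win0 := d.win0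
    kapφ := d.kapφ.trans h1
    L0 := d.L0
    L1 := d.L1.trans h1
    pos0 := d.pos0
    siz0 := fun ω hω i => (d.siz0 ω hω i).trans (Real.exp_le_exp.2 h1) }

/-- **The planes at different times are different.** -/
theorem plnS (h3 : ThrStmt) : ∃ N₃ : ℕ, ∀ (W : ℚ) (θ g b ε' ρ' : ℝ), 0 < W → 0 ≤ b →
    N₃ * b < ε' → 0 < ρ' → g + b < 1 → b < θ * W → (W : ℝ) ≤ g → ∃ σ : ℝ, 0 < σ ∧
    ∀ {m : ℕ} {S : PCl m} {P : List (Fin m) × Fin m → ℝ → ℝ → ℝ} (c : ℕ → Fin m) (N : Nums)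
      (K : ℕ), ThrOf (CHT.chsys m θ) S P → CHT.bet P c 1 W W ≤ g + σ → N.w0 = W → N.g0 1 = g →
      (∀ c₁ : ℝ, 0 < c₁ → EzS S c N K b c₁) → ∀ c₀ : ℝ, 0 < c₀ →
        PlnS S c N K b ε' ρ' c₀ := by
  obtain ⟨N₃, h⟩ := plnC h3
  refine ⟨N₃, ?_⟩
  intro W θ g b ε' ρ' k1 k2 k3 k4 k5 k6 k7
  obtain ⟨σ, φ₀, hσ, hφ₀, h⟩ := h W θ g b ε' ρ' k1 k2 k3 k4 k5 k6 k7
  refine ⟨σ, hσ, ?_⟩
  intro m S P c N K hP hbet hw hg hE c₀ hc₀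
  obtain ⟨φ, hφ, τ₁, hτ₁, J₁, h1⟩ := hE (c₀ / 2) (by linarith)
  obtain ⟨τ₂, hτ₂, J₂, h2⟩ := h c hP hbet c₀ hc₀
  refine ⟨min φ φ₀, lt_min hφ hφ₀, min τ₁ τ₂, lt_min hτ₁ hτ₂, max J₁ J₂, ?_⟩
  intro J hJ F A hF d R hR
  have hJ0 : (0 : ℝ) ≤ J := Nat.cast_nonneg J
  have hm1 : min φ φ₀ ≤ φ := min_le_left _ _
  have hm2 : min φ φ₀ * (J : ℝ) ≤ φ₀ * J :=
    mul_le_mul_of_nonneg_right (min_le_right _ _) hJ0
  have hEz := h1 J ((le_max_left _ _).trans hJ) F A (S.mono (min_le_left _ _) hF) (upD hm1 d)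
  have hz := d.numz.trans hm2
  have hc1 : ∀ ω, A ω → d.zz (ptr F J ω) = d.zz' (slam F ⌊N.w0 * J⌋₊ ω) := d.lab0.cls
  have hs : ∀ ω, A ω → |d.a (d.zz (ptr F J ω)) 2| ≤ Real.exp (φ₀ * J) := fun ω hω =>
    (d.siz0 ω hω 2).trans (Real.exp_le_exp.2 hm2)
  have hd : ∀ ω, d.Ez ω = 2 ^ d.G0 / 2 ^ ⌊N.w0 * J⌋₊ *
    (F.d ω (c 1) - d.a (d.zz (ptr F J ω)) 1 - d.a (d.zz (ptr F J ω)) 2 * F.d ω (c 0)) :=
    fun ω => rfl
  rw [hw] at hc1 hd ⊢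
  rw [hg] at hz
  exact h2 J ((le_max_right _ _).trans hJ) F A (S.mono (min_le_right _ _) hF) d.G0
    (fun y => d.a (d.zz y)) (fun s => d.a (d.zz' s)) R d.Ez hz
    (fun ω hω => by
      show d.a (d.zz (ptr F J ω)) = d.a (d.zz' (slam F ⌊(W : ℝ) * J⌋₊ ω))
      rw [hc1 ω hω]) hs hR hd hEz

end Pool.PLN
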