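import Pool.Agent.H26.PLN.Iid
import Pool.Agent.H45.EXA.Nbc
import Pool.Agent.H2.UST.Fr
import Pool.Agent.H71.GEN.Nst

/-!
# Two times of a line, and the active velocity at an exact point

`tm_no`: the time is not near a function of the line and of the window, behind the windows.
`e5`: two independent samples of the line and of the window have separated times.
`act_no`: the active velocity is not near a function of the exact point.
Both events have exponentially small mass.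
-/

set_option autoImplicit false

namespace Pool.PLN26

open Finset Real
open Pool.Agent.H49.Ent Pool.Agent.H32.Dense Pool.STK Pool.KA Pool.KSAT Pool.K2S Pool.PB Pool.S6C
open Pool.GEN Pool.CHT
open Pool.GRW (TmWn)
open Pool.KM7 (P2 P2_isLaw P2_swap)

/-! ### From selected samples to pairs -/

/-- **A relation of two samples**, small for every selected second sample. -/
theorem pair_of {Ω GT : Type} [Fintype Ω] {p q : Ω → ℝ} {A : Ω → Prop} {M ε : ℝ}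
    (hq : IsLaw q) (hM : 0 ≤ M) (hPA : 0 < Pe p A) (hqA : ∀ ω, 0 < q ω → A ω)
    (hqM : ∀ ω, q ω * Pe p A ≤ M * p ω) (g : Ω → GT) (R : Ω → Ω → Prop)
    (h : ∀ sel : GT → Ω, Pe p (fun ω => A ω ∧ R ω (sel (g ω))) ≤ ε * Pe p A) :
    Pe (P2 q g) (fun x => R x.1 x.2) ≤ M * ε := by
  classical
  have hne : Nonempty Ω := by
    by_contra hcon
    rw [not_nonempty_iff] at hcon
    have h2 := hq.sum_one
    rw [Finset.univ_eq_empty, Finset.sum_empty] at h2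
    exact zero_ne_one h2
  obtain ⟨sel, hsel⟩ := Pool.JVE.pair_sel hq.nonneg g R
  refine hsel.trans ?_
  have h4 : Pe q (fun ω => R ω (sel (g ω))) * Pe p A ≤
      M * Pe p (fun ω => A ω ∧ R ω (sel (g ω))) := by
    rw [Pool.JVE.pe_sum q, Pool.JVE.pe_sum p (fun ω => A ω ∧ R ω (sel (g ω))), Finset.sum_mul,
      Finset.mul_sum]
    refine Finset.sum_le_sum fun ω _ => ?_
    by_cases h5 : R ω (sel (g ω))
    · rw [if_pos h5]
      by_cases h6 : A ω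
      · rw [if_pos ⟨h6, h5⟩]
        exact hqM ω
      · rw [if_neg (fun h => h6 h.1), mul_zero]
        have h7 : q ω = 0 := le_antisymm (not_lt.1 fun h => h6 (hqA ω h)) (hq.nonneg ω)
        rw [h7, zero_mul]
    · rw [if_neg h5, if_neg (fun h => h5 h.2), zero_mul, mul_zero]
  have h6 : Pe q (fun ω => R ω (sel (g ω))) * Pe p A ≤ M * ε * Pe p A := by
    rw [mul_assoc]
    exact h4.trans (mul_le_mul_of_nonneg_left (h sel) hM)
  exact le_of_mul_le_mul_right h6 hPA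

/-! ### The time -/

variable {m : ℕ} {S : PCl m}

/-- **The time is not near a function of the line and of the window.** -/
theorem tm_no {w : ℝ} (hS : TmWn S w) {φ : ℝ} (hφ : 0 < φ) (hw : 0 ≤ w) (hw1 : w + φ ≤ 1) :
    ∃ δ : ℝ, 0 < δ ∧ Bas S (fun J F A => ∀ (f : LnT F → ℝ) (B : F.Ω → Prop), Sub B A →
      (∀ ω, B ω → |F.t ω - f (slam F ⌊w * J⌋₊ ω)| ≤ 1 / 2 ^ (⌊w * J⌋₊ + ⌊φ * J⌋₊)) →
      Pe F.p B ≤ Real.exp (-(δ * J)) * Pe F.p A) := by
  have hl2 : 0 < Real.log 2 := Real.log_pos (by norm_num)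
  obtain ⟨τ, hτ, J₁, hT⟩ := hS (φ * Real.log 2 / 2) (by positivity)
  obtain ⟨J₂, hJ₂⟩ := exists_nat_ge ((Real.log 2 + Real.log 9) / (φ * Real.log 2 / 2) + 1)
  refine ⟨τ / 2, by linarith, τ / 2, by linarith, max J₁ J₂, ?_⟩
  intro J hJ F A hA f B hBA hB
  by_contra hcon
  push Not at hcon
  have hSB : S.St (τ / 2 + τ / 2) J F B := S.res (by linarith) hA hBA hcon.le
  rw [add_halves] at hSB
  obtain ⟨hPB, h1⟩ := hT J ((le_max_left _ _).trans hJ) F B hSB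
  have hJ0 : (0 : ℝ) ≤ J := Nat.cast_nonneg J
  have hJ' : ((J₂ : ℕ) : ℝ) ≤ J := by exact_mod_cast (le_max_right _ _).trans hJ
  have e0 : ⌊w * J⌋₊ + ⌊φ * J⌋₊ ≤ J := by
    have a1 := Nat.floor_le (show 0 ≤ w * (J : ℝ) by positivity)
    have a2 := Nat.floor_le (show 0 ≤ φ * (J : ℝ) by positivity)
    have a3 : ((⌊w * J⌋₊ + ⌊φ * J⌋₊ : ℕ) : ℝ) ≤ J := by
      push_cast
      nlinarith
    exact_mod_cast a3
  have h2 := h1 ⌊φ * J⌋₊ e0
  obtain ⟨r, hr⟩ : ∃ r, r = ⌊w * J⌋₊ + ⌊φ * J⌋₊ := ⟨_, rfl⟩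
  rw [← hr] at h2 hB e0
  have hlaw : IsLaw (Pool.Agent.H49.Ent.cond F.p B True) := isLaw_cond F.isLaw hPB
  -- the digits of the time are few given the line
  have h3 : CH (Pool.Agent.H49.Ent.cond F.p B True) (fun ω => ((F.T1 r ω : ℕ) : ℤ))
      (slam F ⌊w * J⌋₊) ≤ Real.log (2 * (2 * 2) + 1) := by
    refine Pool.UST.CH_near_int hlaw _ _ (fun s => 2 ^ r * f s) fun ω hω => ?_
    have hBω : B ω := by
      have := ((cond_pos_iff F.isLaw.nonneg B True ω).1 hω).2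
      exact of_eq_true this
    have h4 := hB ω hBω
    have hp : (0 : ℝ) < 2 ^ r := by positivity
    have h5 : |2 ^ r * F.t ω - 2 ^ r * f (slam F ⌊w * J⌋₊ ω)| ≤ 1 := by
      rw [← mul_sub, abs_mul, abs_of_pos hp]
      calc (2 : ℝ) ^ r * |F.t ω - f (slam F ⌊w * J⌋₊ ω)| ≤ 2 ^ r * (1 / 2 ^ r) :=
            mul_le_mul_of_nonneg_left h4 hp.le
        _ = 1 := by field_simp
    have h6 : |(((F.T1 r ω : ℕ) : ℤ) : ℝ) - 2 ^ r * F.t ω| ≤ 1 := by
      have e1 : (2 : ℝ) ^ r * F.t ω = (F.T ω : ℝ) / 2 ^ (J - r) := by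
        unfold Fam.t
        rw [show (2 : ℝ) ^ J = 2 ^ r * 2 ^ (J - r) by rw [← pow_add]; congr 1; omega]
        field_simp
      rw [e1]
      have e2 : ((2 : ℝ) ^ (J - r)) = ((2 ^ (J - r) : ℕ) : ℝ) := by push_cast; rfl
      have e3 : (F.T1 r ω : ℕ) = F.T ω / 2 ^ (J - r) := rfl
      rw [e3, e2]
      have hq : (0 : ℝ) < ((2 ^ (J - r) : ℕ) : ℝ) := by positivity
      have e4 : ((F.T ω / 2 ^ (J - r) : ℕ) : ℝ) ≤ (F.T ω : ℝ) / ((2 ^ (J - r) : ℕ) : ℝ) :=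
        Nat.cast_div_le
      have e5 : (F.T ω : ℝ) / ((2 ^ (J - r) : ℕ) : ℝ) < ((F.T ω / 2 ^ (J - r) : ℕ) : ℝ) + 1 := by
        rw [div_lt_iff₀ hq]
        have := Nat.lt_div_mul_add (a := F.T ω) (b := 2 ^ (J - r)) (by positivity)
        have h7 : (F.T ω : ℝ) < ((F.T ω / 2 ^ (J - r) * 2 ^ (J - r) + 2 ^ (J - r) : ℕ) : ℝ) := by
          exact_mod_cast this
        refine h7.trans_le (le_of_eq ?_)
        push_cast
        ring
      rw [Int.cast_natCast, abs_le]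
      constructor <;> linarith
    have e6 : (((F.T1 r ω : ℕ) : ℤ) : ℝ) - 2 ^ r * f (slam F ⌊w * J⌋₊ ω) =
        ((((F.T1 r ω : ℕ) : ℤ) : ℝ) - 2 ^ r * F.t ω) +
          (2 ^ r * F.t ω - 2 ^ r * f (slam F ⌊w * J⌋₊ ω)) := by ring
    rw [e6]
    exact (abs_add_le _ _).trans (by linarith)
  have h7 : CH (Pool.Agent.H49.Ent.cond F.p B True) (F.T1 r) (slam F ⌊w * J⌋₊) =
      CH (Pool.Agent.H49.Ent.cond F.p B True) (fun ω => ((F.T1 r ω : ℕ) : ℤ))
        (slam F ⌊w * J⌋₊) := by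
    refine CH_congr hlaw.nonneg ?_ ?_ (fun _ _ _ _ h => h) (fun _ _ _ _ h => h)
    · intro ω ω' _ _ hh
      have h8 := (Prod.ext_iff.1 hh).1
      dsimp only at h8 ⊢
      rw [h8]
    · intro ω ω' _ _ hh
      have h8 := (Prod.ext_iff.1 hh).1
      dsimp only at h8 ⊢
      exact_mod_cast h8
  rw [h7] at h2
  have h8 : φ * J - 1 < (⌊φ * J⌋₊ : ℝ) := by
    have := Nat.lt_floor_add_one (φ * (J : ℝ))
    linarith
  have h9 : (φ * J - 1) * Real.log 2 < (⌊φ * J⌋₊ : ℝ) * Real.log 2 :=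
    mul_lt_mul_of_pos_right h8 hl2
  have h10 : (2 * (2 * 2) + 1 : ℝ) = 9 := by norm_num
  rw [h10] at h3
  have h11 : φ * Real.log 2 / 2 * J < Real.log 2 + Real.log 9 := by nlinarith
  have h12 : (Real.log 2 + Real.log 9) / (φ * Real.log 2 / 2) < J := by linarith
  rw [div_lt_iff₀ (by positivity)] at h12
  linarith

/-- **Two samples of the line and of the window have separated times.** -/
theorem e5 {w : ℝ} (hS : TmWn S w) {φ : ℝ} (hφ : 0 < φ) (hw : 0 ≤ w) (hw1 : w + φ ≤ 1) :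
    ∃ δ : ℝ, 0 < δ ∧ Bas S (fun J F A => ∀ (q : F.Ω → ℝ) (M : ℝ), IsLaw q → 0 ≤ M →
      (∀ ω, 0 < q ω → A ω) → (∀ ω, q ω * Pe F.p A ≤ M * F.p ω) →
      Pe (P2 q (slam F ⌊w * J⌋₊)) (fun x => |F.t x.1 - F.t x.2| ≤
        1 / 2 ^ (⌊w * J⌋₊ + ⌊φ * J⌋₊)) ≤ M * Real.exp (-(δ * J))) := by
  obtain ⟨δ, hδ, τ, hτ, J₁, h⟩ := tm_no hS hφ hw hw1
  obtain ⟨τ₂, hτ₂, J₂, h₂⟩ := hS 1 one_pos
  refine ⟨δ, hδ, min τ τ₂, lt_min hτ hτ₂, max J₁ J₂, ?_⟩
  intro J hJ F A hA q M hq hM hqA hqM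
  have hPA := (h₂ J ((le_max_right _ _).trans hJ) F A (S.mono (min_le_right _ _) hA)).1
  refine pair_of (ε := Real.exp (-(δ * J))) hq hM hPA hqA hqM (slam F ⌊w * J⌋₊)
    (fun ω ω' => |F.t ω - F.t ω'| ≤ 1 / 2 ^ (⌊w * J⌋₊ + ⌊φ * J⌋₊)) fun sel => ?_
  exact h J ((le_max_left _ _).trans hJ) F A (S.mono (min_le_left _ _) hA)
    (fun s => F.t (sel s)) _ (fun ω hω => hω.1) fun ω hω => hω.2

/-! ### The active velocity -/

/-- The first digits are active. -/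
theorem actm_zero {N : ℚ → ℚ → ℝ} {al : ℝ} {g₀ : ℝ → ℝ} (h : ActM N al g₀) {ε : ℝ} (hε : 0 < ε)
    (hε1 : ε < 1) {g : ℚ} (hg : 0 < g) (hgg : (g : ℝ) ≤ g₀ ε) : (al - ε) * g ≤ N 0 g := by
  classical
  have h1 := h ε hε g hg hgg 1
  by_contra hcon
  push Not at hcon
  have h2 : (((range 1).filter fun i : ℕ => N (i * (g / (1 : ℕ))) ((i + 1) * (g / (1 : ℕ))) <
      (al - ε) * ((g : ℝ) / (1 : ℕ))).card : ℝ) = 1 := by
    have h3 : ((range 1).filter fun i : ℕ => N (i * (g / (1 : ℕ))) ((i + 1) * (g / (1 : ℕ))) <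
      (al - ε) * ((g : ℝ) / (1 : ℕ))) = range 1 := by
      refine Finset.filter_true_of_mem fun i hi => ?_
      have hi0 : i = 0 := by
        have := Finset.mem_range.1 hi
        omega
      subst hi0
      simpa using hcon
    rw [h3]
    simp
  rw [h2] at h1
  push_cast at h1
  linarith

/-- **The active velocity is not near a function of the exact point.** -/
theorem act_no {N : ℚ → ℚ → ℝ} {k : Fin m} (hS : ActB N S k) {g : ℚ} (hg : 0 < g) (hg1 : g ≤ 1)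
    (hN : 0 < N 0 g) :
    ∃ δ : ℝ, 0 < δ ∧ Bas S (fun J F A => ∀ (f : PtT F → ℝ) (B : F.Ω → Prop), Sub B A →
      0 < Pe F.p A → (∀ ω, B ω → |F.d ω k - f (ptr F J ω)| ≤ 1 / 2 ^ ⌊(g : ℝ) * J⌋₊) →
      Pe F.p B ≤ Real.exp (-(δ * J)) * Pe F.p A) := by
  have hl2 : 0 < Real.log 2 := Real.log_pos (by norm_num)
  obtain ⟨τ, hτ, J₁, hT⟩ := hS 0 g le_rfl hg.le hg1 (N 0 g / 2) (by linarith)
  obtain ⟨J₂, hJ₂⟩ := exists_nat_ge (Real.log 9 / (N 0 g / 2 * Real.log 2) + 1)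
  refine ⟨τ / 2, by linarith, τ / 2, by linarith, max J₁ J₂, ?_⟩
  intro J hJ F A hA f B hBA hPA hB
  by_contra hcon
  push Not at hcon
  have hSB : S.St (τ / 2 + τ / 2) J F B := S.res (by linarith) hA hBA hcon.le
  rw [add_halves] at hSB
  have h1 := hT J ((le_max_left _ _).trans hJ) F B hSB
  dsimp only at h1
  have hPB : 0 < Pe F.p B := lt_of_le_of_lt (by positivity) hcon
  have hJ0 : (0 : ℝ) ≤ J := Nat.cast_nonneg J
  have hJ' : ((J₂ : ℕ) : ℝ) ≤ J := by exact_mod_cast (le_max_right _ _).trans hJ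
  obtain ⟨r, hr⟩ : ∃ r, r = ⌊(g : ℝ) * J⌋₊ := ⟨_, rfl⟩
  rw [← hr] at h1 hB
  have hlaw : IsLaw (Pool.Agent.H49.Ent.cond F.p B True) := isLaw_cond F.isLaw hPB
  have h3 : CH (Pool.Agent.H49.Ent.cond F.p B True) (fun ω => F.D r ω k)
      (fun ω => (F.D ⌊((0 : ℚ) : ℝ) * J⌋₊ ω, (F.X J ω, F.W ω))) ≤
      Real.log (2 * (2 * 2) + 1) := by
    refine Pool.UST.CH_near_int hlaw _ _ (fun s => 2 ^ r * f s.2) fun ω hω => ?_
    have hBω : B ω := by
      have := ((cond_pos_iff F.isLaw.nonneg B True ω).1 hω).2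
      exact of_eq_true this
    have h4 := hB ω hBω
    have hp : (0 : ℝ) < 2 ^ r := by positivity
    have h5 : |2 ^ r * F.d ω k - 2 ^ r * f (ptr F J ω)| ≤ 1 := by
      rw [← mul_sub, abs_mul, abs_of_pos hp]
      calc (2 : ℝ) ^ r * |F.d ω k - f (ptr F J ω)| ≤ 2 ^ r * (1 / 2 ^ r) :=
            mul_le_mul_of_nonneg_left h4 hp.le
        _ = 1 := by field_simp
    have e1 : ((F.D r ω k : ℤ) : ℝ) = ((⌊(2 : ℝ) ^ r * F.d ω k⌋ : ℤ) : ℝ) := rfl
    have h6 := Int.floor_le ((2 : ℝ) ^ r * F.d ω k)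
    have h7 := Int.lt_floor_add_one ((2 : ℝ) ^ r * F.d ω k)
    have e2 : f ((F.X J ω, F.W ω)) = f (ptr F J ω) := rfl
    rw [e1]
    show |((⌊(2 : ℝ) ^ r * F.d ω k⌋ : ℤ) : ℝ) - 2 ^ r * f (F.X J ω, F.W ω)| ≤ 2
    rw [e2]
    rw [abs_le] at h5 ⊢
    constructor <;> linarith [h5.1, h5.2]
  have h10 : (2 * (2 * 2) + 1 : ℝ) = 9 := by norm_num
  rw [h10] at h3
  have h11 : N 0 g / 2 * Real.log 2 * J ≤ Real.log 9 := by
    have e1 : (N 0 g - N 0 g / 2) = N 0 g / 2 := by ring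
    rw [e1] at h1
    exact h1.trans h3
  have h12 : Real.log 9 / (N 0 g / 2 * Real.log 2) < J := by linarith
  rw [div_lt_iff₀ (by positivity)] at h12
  linarith

end Pool.PLN26
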