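import Pool.Agent.H26.PLN.Noc
import Pool.Agent.H1.PLN.Prb

/-!
# Times, slopes and planes: the statements in a class

`timC`: two samples of a line have separated times. `slpC`: a line on which a conic of the exact
point is small is not nearly vertical. `plnC`: the lines of two samples have different slopes.
-/

set_option autoImplicit false

namespace Pool.PLN26

open Finset Real MvPolynomial
open Pool.Agent.H49.Ent Pool.Agent.H32.Dense Pool.STK Pool.KA Pool.KSAT Pool.K2S Pool.PB Pool.S6C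
open Pool.GEN Pool.CHT
open Pool.GRW (TmWn)
open Pool.LBT (ThrOf)
open Pool.KM7 (P2 P2_isLaw P2_swap P2_pos)
open Pool.PLN (qd Nq Ln1 Ln2 ThrStmt ex ex_pos ex_add ex_le ex_neg ex_pow ex_le_one one_le_ex
  ex_floor floor_ex const_le_ex ex_zero pe_le_add pe_ex' pe_mono pe_nonneg ex_two_pow)

/-! ### Conditional laws -/

theorem cond_mem {Ω : Type} [Fintype Ω] {p : Ω → ℝ} (hp : ∀ ω, 0 ≤ p ω) {A : Ω → Prop} {ω : Ω}
    (h : 0 < Pool.Agent.H49.Ent.cond p A True ω) : A ω :=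
  of_eq_true ((cond_pos_iff hp A True ω).1 h).2

theorem cond_mul {Ω : Type} [Fintype Ω] {p : Ω → ℝ} (hp : ∀ ω, 0 ≤ p ω) {A : Ω → Prop}
    (hA : 0 < Pe p A) (ω : Ω) : Pool.Agent.H49.Ent.cond p A True ω * Pe p A ≤ 1 * p ω := by
  unfold Pool.Agent.H49.Ent.cond
  split_ifs with h
  · have e1 : law p A True = Pe p A := rfl
    rw [e1, div_mul_cancel₀ _ hA.ne', one_mul]
  · rw [zero_mul, one_mul]
    exact hp ω

theorem pe_cond_le {Ω : Type} [Fintype Ω] {p : Ω → ℝ} (hp : ∀ ω, 0 ≤ p ω) {A E : Ω → Prop}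
    {ε : ℝ} (hε : 0 ≤ ε) (h : Pe p (fun ω => A ω ∧ E ω) ≤ ε * Pe p A) :
    Pe (Pool.Agent.H49.Ent.cond p A True) E ≤ ε := by
  rw [Pe_cond]
  have h0 : 0 ≤ Pe p A := by
    rw [Pool.JVE.pe_sum]
    refine Finset.sum_nonneg fun x _ => ?_
    split_ifs
    exacts [hp x, le_rfl]
  rcases h0.eq_or_lt with h1 | h1
  · rw [← h1, div_zero]
    exact hε
  · rwa [div_le_iff₀ h1]

theorem exp_small {δ c : ℝ} (hδ : 0 < δ) (hc : 0 < c) : ∃ J₁ : ℕ, ∀ J : ℕ, J₁ ≤ J →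
    Real.exp (-(δ * J)) ≤ c := by
  obtain ⟨J₁, hJ₁⟩ := exists_nat_ge (1 / (δ * c))
  refine ⟨J₁, fun J hJ => ?_⟩
  have hJ' : (J₁ : ℝ) ≤ J := by exact_mod_cast hJ
  have h1 := hJ₁.trans hJ'
  rw [div_le_iff₀ (by positivity)] at h1
  have h3 := Real.add_one_le_exp (δ * J)
  have h4 : 0 < Real.exp (δ * J) := Real.exp_pos _
  have h5 : 1 ≤ c * Real.exp (δ * J) := by nlinarith
  rw [Real.exp_neg]
  rw [inv_le_iff_one_le_mul₀ h4]
  exact h5

/-- The first sample of a pair. -/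
theorem pe_fst {Ω Ξ : Type} [Fintype Ω] {q : Ω → ℝ} (hq : IsLaw q) (g : Ω → Ξ) (E : Ω → Prop) :
    Pe (P2 q g) (fun v => E v.1) = Pe q E := by
  classical
  have h1 := P2_sum q g (fun y => if E y.1 then (1 : ℝ) else 0)
  rw [Pool.JVE.pe_sum, Pool.JVE.pe_sum]
  refine (Finset.sum_congr rfl fun w _ => ?_).trans (h1.trans (Finset.sum_congr rfl fun ω _ => ?_))
  · split_ifs <;> simp
  · have h3 : (∑ v, Pool.Agent.H49.Ent.cond q g (g ω) v * if E (ω, v).1 then (1 : ℝ) else 0) =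
        (∑ v, Pool.Agent.H49.Ent.cond q g (g ω) v) * if E ω then (1 : ℝ) else 0 := by
      rw [Finset.sum_mul]
    rw [h3]
    rcases (hq.nonneg ω).eq_or_lt with h0 | h0
    · rw [← h0]
      simp
    · have h2 : ∑ v, Pool.Agent.H49.Ent.cond q g (g ω) v = 1 := by
        refine sum_cond q g ?_
        refine (lt_of_lt_of_le h0 ?_).ne'
        unfold law
        refine le_trans ?_ (Finset.single_le_sum (f := fun v => if g v = g ω then q v else 0)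
          (fun v _ => ?_) (Finset.mem_univ ω))
        · rw [if_pos rfl]
        · split_ifs
          exacts [hq.nonneg v, le_rfl]
      rw [h2]
      split_ifs <;> simp

/-! ### Times -/

variable {m : ℕ}

/-- **Two samples of a line have separated times.** -/
theorem timC {S : PCl m} {w : ℝ} (hS : TmWn S w) (hw : 0 ≤ w) (hw1 : w < 1) {b c₀ : ℝ}
    (hb : 0 < b) (hc : 0 < c₀) :
    Bas S (fun J F A => Pe (P2 (Pool.Agent.H49.Ent.cond F.p A True) (slam F ⌊w * J⌋₊))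
      (fun v => 2 ^ ⌊w * J⌋₊ * |F.t v.1 - F.t v.2| < ex b J) ≤ c₀) := by
  obtain ⟨φ, hφ⟩ : ∃ φ, φ = min b (1 - w) := ⟨_, rfl⟩
  have hφ0 : 0 < φ := by
    rw [hφ]
    exact lt_min hb (by linarith)
  have hφb : φ ≤ b := by
    rw [hφ]
    exact min_le_left _ _
  have hφw : w + φ ≤ 1 := by
    have : φ ≤ 1 - w := by
      rw [hφ]
      exact min_le_right _ _
    linarith
  obtain ⟨δ, hδ, τ, hτ, J₁, h⟩ := e5 hS hφ0 hw hφw
  obtain ⟨J₂, hJ₂⟩ := exp_small hδ hc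
  obtain ⟨τ₂, hτ₂, J₃, h₂⟩ := hS 1 one_pos
  refine ⟨min τ τ₂, lt_min hτ hτ₂, max (max J₁ J₂) J₃, ?_⟩
  intro J hJ F A hA
  have hPA := (h₂ J ((le_max_right _ _).trans hJ) F A (S.mono (min_le_right _ _) hA)).1
  have h1 := h J ((le_max_left _ _).trans ((le_max_left _ _).trans hJ)) F A
    (S.mono (min_le_left _ _) hA) (Pool.Agent.H49.Ent.cond F.p A True) 1
    (isLaw_cond F.isLaw hPA) zero_le_one (fun ω => cond_mem F.isLaw.nonneg)
    (cond_mul F.isLaw.nonneg hPA)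
  have h3 := hJ₂ J ((le_max_right _ _).trans ((le_max_left _ _).trans hJ))
  rw [one_mul] at h1
  refine le_trans ?_ (h1.trans h3)
  refine pe_le_of (P2_isLaw (isLaw_cond F.isLaw hPA) _).nonneg fun v hv => ?_
  have h4 : ex b J ≤ 1 / 2 ^ ⌊φ * J⌋₊ := (ex_le hφb J).trans (ex_floor hφ0.le J)
  have h5 : (0 : ℝ) < 2 ^ ⌊w * (J : ℝ)⌋₊ := by positivity
  rw [pow_add, ← div_div, div_right_comm, le_div_iff₀ h5, mul_comm]
  exact hv.le.trans h4

/-! ### Slopes are bounded -/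

/-- **A line on which the conic of the exact point is small** is not nearly vertical. -/
theorem slpC (h3 : ThrStmt) {S : PCl m} {k : Fin m} {Nn : ℚ → ℚ → ℝ} (hA : ActB Nn S k)
    (hN : ∀ g₁ : ℝ, 0 < g₁ → ∃ g : ℚ, 0 < g ∧ (g : ℝ) ≤ g₁ ∧ 0 < Nn 0 g) {b ε' c₀ : ℝ}
    (hb : 0 < b) (hε : 0 < ε') (hc : 0 < c₀) :
    Bas S (fun J F A => ∀ (Ez : F.Ω → ℝ) (R : PtT F → Fin 6 → ℝ), (∀ ξ, Nq (R ξ)) →
      Pe (Pool.Agent.H49.Ent.cond F.p A True) (fun ω => ¬ |Ez ω| ≤ ex (-(b / 2)) J) ≤ c₀ / 2 →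
      Pe (Pool.Agent.H49.Ent.cond F.p A True) (fun ω => ∃ α β : ℝ, |β| * ex (-b) J < 1 ∧
        Ln2 (R (ptr F J ω)) (ex ε' J) α β ∧ |F.d ω k - α - β * Ez ω| ≤ ex ε' J) ≤ c₀) := by
  classical
  obtain ⟨N, C, hC, hL⟩ := two_list h3
  obtain ⟨ρ, hρ⟩ : ∃ ρ, ρ = ε' / (2 * (N + 1)) := ⟨_, rfl⟩
  have hN0 : (0 : ℝ) < 2 * (N + 1) := by positivity
  have hρ0 : 0 < ρ := by
    rw [hρ]
    positivity
  have hρN : N * ρ + ε' / 2 ≤ ε' := by
    have h1 : (N + 1) * ρ = ε' / 2 := by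
      rw [hρ]
      field_simp
    nlinarith
  obtain ⟨μ, hμ⟩ : ∃ μ, μ = min (min ε' (b / 2)) ρ := ⟨_, rfl⟩
  have hμ0 : 0 < μ := by
    rw [hμ]
    exact lt_min (lt_min hε (by linarith)) hρ0
  have hμ1 : μ ≤ ε' := by
    rw [hμ]
    exact (min_le_left _ _).trans (min_le_left _ _)
  have hμ2 : μ ≤ b / 2 := by
    rw [hμ]
    exact (min_le_left _ _).trans (min_le_right _ _)
  have hμ3 : μ ≤ ρ := by
    rw [hμ]
    exact min_le_right _ _
  obtain ⟨g, hg0, hgμ, hNg⟩ := hN (min (μ / 2) 1) (lt_min (by linarith) one_pos)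
  have hg1 : g ≤ 1 := by
    have : (g : ℝ) ≤ 1 := hgμ.trans (min_le_right _ _)
    exact_mod_cast this
  have hg2 : (g : ℝ) ≤ μ / 2 := hgμ.trans (min_le_left _ _)
  have hg0' : (0 : ℝ) < g := by exact_mod_cast hg0
  obtain ⟨δ, hδ, τ, hτ, J₁, hact⟩ := act_no hA hg0 hg1 hNg
  obtain ⟨J₂, hJ₂⟩ := exp_small hδ (show (0 : ℝ) < c₀ / 4 by linarith)
  obtain ⟨J₃, hJ₃⟩ := const_le_ex (C * 3 ^ N) (show 0 < ε' / 2 by linarith)
  obtain ⟨J₄, hJ₄⟩ := const_le_ex 3 (show 0 < μ / 2 by linarith)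
  refine ⟨τ, hτ, max (max J₁ J₂) (max J₃ J₄), ?_⟩
  intro J hJ F A hFA Ez R hR hEz
  have j1 : J ≥ J₁ := (le_max_left _ _).trans ((le_max_left _ _).trans hJ)
  have j2 : J ≥ J₂ := (le_max_right _ _).trans ((le_max_left _ _).trans hJ)
  have j3 : J ≥ J₃ := (le_max_left _ _).trans ((le_max_right _ _).trans hJ)
  have j4 : J ≥ J₄ := (le_max_right _ _).trans ((le_max_right _ _).trans hJ)
  rcases (pe_nonneg F.isLaw.nonneg A).eq_or_lt with h0 | hPA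
  · rw [Pe_cond, ← h0, div_zero]
    exact hc.le
  obtain ⟨L, hL⟩ := hL (ex ε' J) (ex ρ J) 3 (ex_pos _ _).le (ex_pos _ _) (ex_le_one hρ0.le J)
    (by norm_num) (by
      rw [ex_pow]
      have e1 := hJ₃ J j3
      calc C * 3 ^ N * ex ε' J ≤ ex (-(ε' / 2)) J * ex ε' J :=
            mul_le_mul_of_nonneg_right e1 (ex_pos _ _).le
        _ = ex (-(ε' / 2) + ε') J := (ex_add _ _ _).symm
        _ ≤ ex (N * ρ) J := ex_le (by linarith) J)
  have key : ∀ i : Fin 2, Pe (Pool.Agent.H49.Ent.cond F.p A True)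
      (fun ω => |F.d ω k - (L (sw (R (ptr F J ω))) i).1| ≤ 1 / 2 ^ ⌊(g : ℝ) * J⌋₊) ≤ c₀ / 4 := by
    intro i
    refine (pe_cond_le F.isLaw.nonneg (Real.exp_pos _).le ?_).trans (hJ₂ J j2)
    exact hact J j1 F A hFA (fun y => (L (sw (R y)) i).1) _ (fun ω hω => hω.1) hPA
      fun ω hω => hω.2
  have hnn : ∀ ω, 0 ≤ Pool.Agent.H49.Ent.cond F.p A True ω := cond_nonneg F.isLaw.nonneg A True
  refine (pe_le_add hnn (B := fun ω => ¬ |Ez ω| ≤ ex (-(b / 2)) J)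
    (C := fun ω => ∃ i : Fin 2,
      |F.d ω k - (L (sw (R (ptr F J ω))) i).1| ≤ 1 / 2 ^ ⌊(g : ℝ) * J⌋₊) ?_).trans ?_
  · rintro ω - ⟨α, β, h1, h2, h4⟩
    by_cases h5 : |Ez ω| ≤ ex (-(b / 2)) J
    · right
      have h6 : |β| ≤ ex b J := by
        rw [ex_neg, ← div_eq_mul_inv, div_lt_one (ex_pos _ _)] at h1
        exact h1.le
      have h7 : |β * Ez ω| ≤ ex (b / 2) J := by
        rw [abs_mul]
        calc |β| * |Ez ω| ≤ ex b J * ex (-(b / 2)) J :=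
              mul_le_mul h6 h5 (abs_nonneg _) (ex_pos _ _).le
          _ = ex (b / 2) J := by
              rw [← ex_add]
              congr 1
              ring
      have h8 := F.dir ω k
      have h9 : ex ε' J ≤ 1 := ex_le_one hε.le J
      have h10 : ex (b / 2) J ≤ 1 := ex_le_one (by linarith) J
      have h11 : ex b J ≤ 1 := ex_le_one hb.le J
      have h12 : |α| ≤ 3 := by
        rw [abs_le] at h4 h7 h8 ⊢
        constructor <;> linarith [h4.1, h4.2, h7.1, h7.2, h8.1, h8.2]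
      obtain ⟨i, hi, -⟩ := hL (sw (R (ptr F J ω))) (nq_sw (hR _)) α β h12 (by linarith)
        (ln_sw h2)
      refine ⟨i, ?_⟩
      have e1 : ex ε' J ≤ ex μ J := ex_le hμ1 J
      have e2 : ex (b / 2) J ≤ ex μ J := ex_le hμ2 J
      have e3 : ex ρ J ≤ ex μ J := ex_le hμ3 J
      have e4 : 3 * ex μ J ≤ ex g J := by
        calc 3 * ex μ J ≤ ex (-(μ / 2)) J * ex μ J :=
              mul_le_mul_of_nonneg_right (hJ₄ J j4) (ex_pos _ _).le
          _ = ex (-(μ / 2) + μ) J := (ex_add _ _ _).symm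
          _ ≤ ex g J := ex_le (by linarith) J
      refine le_trans ?_ (ex_floor hg0'.le J)
      refine le_trans ?_ e4
      rw [abs_le] at h4 h7 hi ⊢
      constructor <;> linarith [h4.1, h4.2, h7.1, h7.2, hi.1, hi.2]
    · exact Or.inl h5
  · have h6 := pe_ex' (Finset.univ : Finset (Fin 2)) hnn (A := fun ω => ∃ i : Fin 2,
      |F.d ω k - (L (sw (R (ptr F J ω))) i).1| ≤ 1 / 2 ^ ⌊(g : ℝ) * J⌋₊)
      (fun i ω => |F.d ω k - (L (sw (R (ptr F J ω))) i).1| ≤ 1 / 2 ^ ⌊(g : ℝ) * J⌋₊)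
      (fun i _ => key i) (by
        rintro ω - ⟨i, hi⟩
        exact ⟨i, Finset.mem_univ i, hi⟩)
    have h7 : (((Finset.univ : Finset (Fin 2)).card : ℕ) : ℝ) = 2 := by simp
    rw [h7] at h6
    linarith

/-! ### Planes at different times -/

theorem two_pow_le_ex {k J : ℕ} {x : ℝ} (h : (k : ℝ) ≤ x * J) : (2 : ℝ) ^ k ≤ ex (-x) J := by
  have h1 := ex_two_pow k J h
  rw [ex_neg]
  rw [le_inv_comm₀ (by positivity) (ex_pos _ _), ← one_div]
  exact h1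

theorem inv_two_pow_le_ex {k J : ℕ} {x : ℝ} (h : x * J ≤ k) : (1 : ℝ) / 2 ^ k ≤ ex x J := by
  unfold Pool.PLN.ex
  rw [Real.exp_neg, one_div]
  refine inv_anti₀ (Real.exp_pos _) ?_
  rw [show (2 : ℝ) ^ k = Real.exp (Real.log 2 * k) by
    rw [mul_comm, Real.exp_nat_mul, Real.exp_log two_pos]]
  refine Real.exp_le_exp.2 ?_
  have h1 : Real.log 2 * (x * J) ≤ Real.log 2 * k :=
    mul_le_mul_of_nonneg_left h (Real.log_nonneg one_le_two)
  linarith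

theorem ex_le_two_pow (x : ℝ) (J : ℕ) : ex (-x) J ≤ 2 * 2 ^ ⌊x * J⌋₊ := by
  have h1 := floor_ex x J
  rw [ex_neg]
  have h2 : (0 : ℝ) < 2 ^ ⌊x * (J : ℝ)⌋₊ := by positivity
  have h3 := ex_pos x J
  rw [inv_le_iff_one_le_mul₀ h3]
  rw [div_le_iff₀ h2] at h1
  linarith

theorem exp_le_ex {a : ℝ} (h : 0 ≤ a) (J : ℕ) : Real.exp (a * J) ≤ ex (-(2 * a)) J := by
  unfold Pool.PLN.ex
  refine Real.exp_le_exp.2 ?_
  have h1 : (0.6931471803 : ℝ) < Real.log 2 := Real.log_two_gt_d9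
  have h0 : 0 ≤ a * (J : ℝ) := mul_nonneg h (Nat.cast_nonneg J)
  nlinarith

/-- **The planes of two samples of a line through which the conics of the exact points are
small**, have different slopes. -/
theorem plnC (h3 : ThrStmt) : ∃ N₃ : ℕ, ∀ (W : ℚ) (θ g b ε' ρ' : ℝ), 0 < W → 0 ≤ b →
    N₃ * b < ε' → 0 < ρ' → g + b < 1 → b < θ * W → (W : ℝ) ≤ g → ∃ σ φ : ℝ, 0 < σ ∧ 0 < φ ∧
    ∀ {m : ℕ} {S : PCl m} {P : List (Fin m) × Fin m → ℝ → ℝ → ℝ} (c : ℕ → Fin m),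
    ThrOf (chsys m θ) S P → bet P c 1 W W ≤ g + σ → ∀ c₀ : ℝ, 0 < c₀ →
    Bas S (fun J F A => ∀ (G0 : ℕ) (a : PtT F → Fin 3 → ℝ) (a' : LnT F → Fin 3 → ℝ)
      (R : PtT F → Fin 6 → ℝ) (Ez : F.Ω → ℝ), |(G0 : ℝ) - g * J| ≤ φ * J →
      (∀ ω, A ω → a (ptr F J ω) = a' (slam F ⌊(W : ℝ) * J⌋₊ ω)) →
      (∀ ω, A ω → |a (ptr F J ω) 2| ≤ Real.exp (φ * J)) → (∀ ξ, Nq (R ξ)) →
      (∀ ω, Ez ω = 2 ^ G0 / 2 ^ ⌊(W : ℝ) * J⌋₊ *
        (F.d ω (c 1) - a (ptr F J ω) 1 - a (ptr F J ω) 2 * F.d ω (c 0))) →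
      Pe (Pool.Agent.H49.Ent.cond F.p A True) (fun ω => ¬ |Ez ω| ≤ ex (-b) J) ≤ c₀ / 2 →
      Pe (P2 (Pool.Agent.H49.Ent.cond F.p A True) (slam F ⌊(W : ℝ) * J⌋₊))
        (fun v => ∃ α β α' β' : ℝ, |β| ≤ ex (-b) J ∧ |β'| ≤ ex (-b) J ∧
          Ln1 (R (ptr F J v.1)) (ex ε' J) α β ∧ Ln1 (R (ptr F J v.2)) (ex ε' J) α' β' ∧
          |Ez v.1 - α - β * F.d v.1 (c 0)| ≤ ex ε' J ∧
          |Ez v.1 - α' - β' * F.d v.1 (c 0)| ≤ ex ε' J ∧ |β - β'| < ex ρ' J) ≤ c₀) := by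
  classical
  obtain ⟨N, C, hC, hL⟩ := two_list h3
  refine ⟨N + 1, ?_⟩
  intro W θ g b ε' ρ' hW hb hbε hρ' hgb hbθ hWg
  push_cast at hbε
  obtain ⟨ρ, hρ⟩ : ∃ ρ, ρ = (ε' - (N + 1) * b) / (2 * (N + 1)) := ⟨_, rfl⟩
  have hN0 : (0 : ℝ) < 2 * (N + 1) := by positivity
  have hρ0 : 0 < ρ := by
    rw [hρ]
    exact div_pos (by linarith) hN0
  have hρN : (N + 1) * ρ = (ε' - (N + 1) * b) / 2 := by
    rw [hρ]
    field_simp
  have hNN : (0 : ℝ) ≤ N := Nat.cast_nonneg N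
  have hρε : ρ ≤ ε' := by nlinarith
  obtain ⟨η, hη⟩ : ∃ η, η = (ε' - (N + 1) * b) / 2 := ⟨_, rfl⟩
  have hη0 : 0 < η := by
    rw [hη]
    linarith
  have hρη : N * ρ + N * b + η ≤ ε' := by nlinarith
  obtain ⟨μ, hμ⟩ : ∃ μ, μ = min (min (θ * W - b) (1 - g - b)) (min ρ ρ') / 4 := ⟨_, rfl⟩
  have hμ0 : 0 < μ := by
    rw [hμ]
    exact div_pos (lt_min (lt_min (by linarith) (by linarith)) (lt_min hρ0 hρ')) (by norm_num)
  have hμ1 : 4 * μ ≤ θ * W - b := by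
    rw [hμ]
    linarith [(min_le_left (min (θ * (W : ℝ) - b) (1 - g - b)) (min ρ ρ')).trans
      (min_le_left _ _)]
  have hμ2 : 4 * μ ≤ 1 - g - b := by
    rw [hμ]
    linarith [(min_le_left (min (θ * (W : ℝ) - b) (1 - g - b)) (min ρ ρ')).trans
      (min_le_right _ _)]
  have hμ3 : 4 * μ ≤ ρ := by
    rw [hμ]
    linarith [(min_le_right (min (θ * (W : ℝ) - b) (1 - g - b)) (min ρ ρ')).trans
      (min_le_left _ _)]
  have hμ4 : 4 * μ ≤ ρ' := by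
    rw [hμ]
    linarith [(min_le_right (min (θ * (W : ℝ) - b) (1 - g - b)) (min ρ ρ')).trans
      (min_le_right _ _)]
  refine ⟨μ / 8, μ / 8, by linarith, by linarith, ?_⟩
  intro m S P c hP hbet c₀ hc₀
  have hW' : (0 : ℝ) < W := by exact_mod_cast hW
  have hW1 : W ≤ 1 := by
    have : (W : ℝ) ≤ 1 := by linarith
    exact_mod_cast this
  obtain ⟨δ, hδ, τ, hτ, J₁, hnoc⟩ := noc hP c W (b + μ) (μ / 8) hW.le hW1 (by linarith)
    (by linarith) (by linarith)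
  obtain ⟨J₂, hJ₂⟩ := exp_small hδ (show (0 : ℝ) < c₀ / 8 by linarith)
  obtain ⟨J₃, hJ₃⟩ := const_le_ex (C * 3 ^ N) hη0
  obtain ⟨J₄, hJ₄⟩ := const_le_ex 12 (show 0 < μ / 2 by linarith)
  obtain ⟨J₅, hJ₅⟩ := exists_nat_ge (1 / W + 8 / μ : ℝ)
  refine ⟨τ, hτ, max (max (max J₁ J₂) (max J₃ J₄)) J₅, ?_⟩
  intro J hJ F A hFA G0 a a' R Ez hG0 haa ha hR hEzd hEz
  have j1 : J ≥ J₁ := (le_max_left _ _).trans ((le_max_left _ _).trans
    ((le_max_left _ _).trans hJ))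
  have j2 : J ≥ J₂ := (le_max_right _ _).trans ((le_max_left _ _).trans
    ((le_max_left _ _).trans hJ))
  have j3 : J ≥ J₃ := (le_max_left _ _).trans ((le_max_right _ _).trans
    ((le_max_left _ _).trans hJ))
  have j4 : J ≥ J₄ := (le_max_right _ _).trans ((le_max_right _ _).trans
    ((le_max_left _ _).trans hJ))
  have j5 : (1 / W + 8 / μ : ℝ) ≤ J := by
    have : (J₅ : ℝ) ≤ J := by exact_mod_cast (le_max_right _ _).trans hJ
    exact hJ₅.trans this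
  have hJ0 : (0 : ℝ) ≤ J := Nat.cast_nonneg J
  have hWJ : 1 ≤ (W : ℝ) * J := by
    have h1 : 1 / (W : ℝ) ≤ J := by
      have : 0 ≤ 8 / μ := by positivity
      linarith
    rw [div_le_iff₀ hW'] at h1
    linarith
  have hμJ : 8 ≤ μ * J := by
    have h1 : 8 / μ ≤ J := by
      have : 0 ≤ 1 / (W : ℝ) := by positivity
      linarith
    rw [div_le_iff₀ hμ0] at h1
    linarith
  rcases (pe_nonneg F.isLaw.nonneg A).eq_or_lt with h0 | hPA
  · have hz : ∀ ω, Pool.Agent.H49.Ent.cond F.p A True ω = 0 := by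
      intro ω
      unfold Pool.Agent.H49.Ent.cond
      have e1 : law F.p A True = 0 := h0.symm
      rw [e1, div_zero, ite_self]
    have hz2 : ∀ v : F.Ω × F.Ω, P2 (Pool.Agent.H49.Ent.cond F.p A True)
        (slam F ⌊(W : ℝ) * J⌋₊) v = 0 := by
      intro v
      unfold Pool.KM7.P2 Pool.Agent.H49.Ent.glue
      rw [hz, zero_mul, zero_div, ite_self]
    rw [Pool.JVE.pe_sum]
    refine (Finset.sum_nonpos fun v _ => ?_).trans hc₀.le
    rw [hz2, ite_self]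
  obtain ⟨w, hw⟩ : ∃ w, w = ⌊(W : ℝ) * J⌋₊ := ⟨_, rfl⟩
  have hw1 : 1 ≤ w := by
    rw [hw]
    exact (Nat.one_le_floor_iff _).2 hWJ
  have hwW : (w : ℝ) ≤ W * J := by
    rw [hw]
    exact Nat.floor_le (by linarith)
  obtain ⟨q₁, hq₁⟩ : ∃ q₁, q₁ = ⌊μ * (J : ℝ)⌋₊ := ⟨_, rfl⟩
  have hq1 : (q₁ : ℝ) ≤ μ * J := by
    rw [hq₁]
    exact Nat.floor_le (by linarith)
  have hq2 : μ * J < q₁ + 1 := by
    rw [hq₁]
    exact Nat.lt_floor_add_one _
  have hq3 : 7 ≤ q₁ := by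
    have : (6 : ℝ) < q₁ := by linarith
    exact_mod_cast this
  have hqe : ex μ J ≤ 1 / 2 ^ q₁ := by
    rw [hq₁]
    exact ex_floor hμ0.le J
  obtain ⟨e₀, he₀⟩ : ∃ e₀, e₀ = ⌊(b + μ) * (J : ℝ)⌋₊ := ⟨_, rfl⟩
  have he1 : (e₀ : ℝ) ≤ (b + μ) * J := by
    rw [he₀]
    exact Nat.floor_le (by positivity)
  have he2 : ex (-(b + μ)) J ≤ 2 * 2 ^ e₀ := by
    rw [he₀]
    exact ex_le_two_pow _ _
  rw [← hw] at haa hEzd ⊢
  obtain ⟨g1, g2⟩ := abs_le.1 hG0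
  -- the ratio of the scales
  obtain ⟨sc, hsc⟩ : ∃ sc : ℝ, sc = 2 ^ w / 2 ^ G0 := ⟨_, rfl⟩
  have hsc0 : 0 < sc := by
    rw [hsc]
    positivity
  have hsc1 : sc ≤ ex (-(μ / 8)) J := by
    have e1 : (2 : ℝ) ^ w ≤ ex (-(W : ℝ)) J := two_pow_le_ex hwW
    have e2 : (1 : ℝ) / 2 ^ G0 ≤ ex (g - μ / 8) J := inv_two_pow_le_ex (by nlinarith)
    calc sc = 2 ^ w * (1 / 2 ^ G0) := by
          rw [hsc]
          ring
      _ ≤ ex (-(W : ℝ)) J * ex (g - μ / 8) J :=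
          mul_le_mul e1 e2 (by positivity) (ex_pos _ _).le
      _ = ex (-(W : ℝ) + (g - μ / 8)) J := (ex_add _ _ _).symm
      _ ≤ ex (-(μ / 8)) J := ex_le (by linarith) J
  have hEzs : ∀ ω, F.d ω (c 1) - a (ptr F J ω) 1 - a (ptr F J ω) 2 * F.d ω (c 0) =
      sc * Ez ω := by
    intro ω
    rw [hEzd, hsc]
    field_simp
  obtain ⟨L, hL⟩ := hL (ex ε' J) (ex ρ J) (3 * ex (-b) J) (ex_pos _ _).le (ex_pos _ _)
    (ex_le_one hρ0.le J) (by
      have := one_le_ex (show -b ≤ 0 by linarith) J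
      linarith) (by
      rw [ex_pow, mul_pow, ex_pow]
      have e1 := hJ₃ J j3
      calc C * (3 ^ N * ex (N * -b) J) * ex ε' J = C * 3 ^ N * ex (N * -b + ε') J := by
            rw [ex_add]
            ring
        _ ≤ ex (-η) J * ex (N * -b + ε') J :=
            mul_le_mul_of_nonneg_right e1 (ex_pos _ _).le
        _ = ex (-η + (N * -b + ε')) J := (ex_add _ _ _).symm
        _ ≤ ex (N * ρ) J := ex_le (by nlinarith) J)
  obtain ⟨T, hT⟩ : ∃ T : Fin 2 → PtT F → ℝ, T = fun i y => a y 2 + sc * (L (R y) i).2 := ⟨_, rfl⟩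
  obtain ⟨T₀, hT₀⟩ : ∃ T₀ : Fin 2 → PtT F → ℝ, T₀ = fun i y => a y 1 + sc * (L (R y) i).1 :=
    ⟨_, rfl⟩
  have hlaw : IsLaw (Pool.Agent.H49.Ent.cond F.p A True) := isLaw_cond F.isLaw hPA
  have key : ∀ x : Fin 2 × Fin 2, Pe (P2 (Pool.Agent.H49.Ent.cond F.p A True) (slam F w))
      (fun v => (1 + |T x.1 (ptr F J v.1)| ≤ 2 ^ (e₀ + 1) ∧ |T x.1 (ptr F J v.1)| ≤ 2 ^ e₀ ∧
        |F.d v.1 (c 1) - T₀ x.1 (ptr F J v.1) - T x.1 (ptr F J v.1) * F.d v.1 (c 0)| ≤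
          2 ^ w / 2 ^ (G0 + q₁)) ∧
        |T x.1 (ptr F J v.1) - T x.2 (ptr F J v.2)| ≤ 2 ^ w / 2 ^ (G0 + q₁ + 2)) ≤ c₀ / 8 := by
    intro x
    have h1 := hnoc J j1 F A hFA w e₀ (e₀ + 1) (G0 + q₁ - 2) (G0 + q₁) (T x.1) (T₀ x.1)
      (fun ω => T x.2 (ptr F J ω)) hw1 (le_of_eq hw) (le_of_eq he₀) (by omega) (by
        have h2 : ((G0 + q₁ + (e₀ + 1) : ℕ) : ℝ) ≤ J := by
          push_cast
          nlinarith
        exact_mod_cast h2) (by
        have h2 : ⌊(bet P c 1 W W + μ / 8) * (J : ℝ)⌋₊ ≤ G0 + q₁ - 2 := by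
          refine Nat.floor_le_of_le ?_
          have h4 : 2 ≤ G0 + q₁ := by omega
          rw [Nat.cast_sub h4]
          push_cast
          have h5 : (bet P c 1 W W + μ / 8) * (J : ℝ) ≤ (g + μ / 8 + μ / 8) * J :=
            mul_le_mul_of_nonneg_right (by linarith) hJ0
          nlinarith
        rw [← hw]
        omega) (Pool.Agent.H49.Ent.cond F.p A True) 1 hlaw zero_le_one hPA
      (fun ω => cond_mem F.isLaw.nonneg) (cond_mul F.isLaw.nonneg hPA)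
    rw [one_mul] at h1
    exact h1.trans (hJ₂ J j2)
  have hnn : ∀ v, 0 ≤ P2 (Pool.Agent.H49.Ent.cond F.p A True) (slam F w) v :=
    (P2_isLaw hlaw _).nonneg
  have hfst := pe_fst hlaw (slam F w) (fun ω => ¬ |Ez ω| ≤ ex (-b) J)
  rw [← hfst] at hEz
  refine (pe_le_add hnn (B := fun v => ¬ |Ez v.1| ≤ ex (-b) J)
    (C := fun v => ∃ x : Fin 2 × Fin 2,
      (1 + |T x.1 (ptr F J v.1)| ≤ 2 ^ (e₀ + 1) ∧ |T x.1 (ptr F J v.1)| ≤ 2 ^ e₀ ∧
        |F.d v.1 (c 1) - T₀ x.1 (ptr F J v.1) - T x.1 (ptr F J v.1) * F.d v.1 (c 0)| ≤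
          2 ^ w / 2 ^ (G0 + q₁)) ∧
        |T x.1 (ptr F J v.1) - T x.2 (ptr F J v.2)| ≤ 2 ^ w / 2 ^ (G0 + q₁ + 2)) ?_).trans ?_
  · rintro v hv ⟨α, β, α', β', h1, h2, h4, h5, h6, h7, h8⟩
    by_cases h9 : |Ez v.1| ≤ ex (-b) J
    · right
      obtain ⟨p1, p2, hs⟩ := (P2_pos hlaw v).1 hv
      have A1 : A v.1 := cond_mem F.isLaw.nonneg p1
      have A2 : A v.2 := cond_mem F.isLaw.nonneg p2
      have haeq : a (ptr F J v.2) = a (ptr F J v.1) := by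
        rw [haa _ A1, haa _ A2, hs]
      have hd := F.dir v.1 (c 0)
      have eb : 1 ≤ ex (-b) J := one_le_ex (by linarith) J
      have eε : ex ε' J ≤ 1 := ex_le_one (by nlinarith) J
      have eρ1 : ex ρ J ≤ 1 := ex_le_one hρ0.le J
      have hmul : ∀ x : ℝ, |x| ≤ ex (-b) J → |x * F.d v.1 (c 0)| ≤ ex (-b) J := by
        intro x hx
        rw [abs_mul]
        calc |x| * |F.d v.1 (c 0)| ≤ ex (-b) J * 1 :=
              mul_le_mul hx hd (abs_nonneg _) (ex_pos _ _).le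
          _ = _ := mul_one _
      have hα : |α| ≤ 3 * ex (-b) J := by
        have h10 := hmul β h1
        rw [abs_le] at h6 h9 h10 ⊢
        constructor <;> linarith [h6.1, h6.2, h9.1, h9.2, h10.1, h10.2]
      have hα' : |α'| ≤ 3 * ex (-b) J := by
        have h10 := hmul β' h2
        rw [abs_le] at h7 h9 h10 ⊢
        constructor <;> linarith [h7.1, h7.2, h9.1, h9.2, h10.1, h10.2]
      obtain ⟨i, i1, i2⟩ := hL _ (hR _) α β hα (by linarith) h4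
      obtain ⟨i', i1', i2'⟩ := hL _ (hR _) α' β' hα' (by linarith) h5
      refine ⟨(i, i'), ?_⟩
      -- the scales
      have s1 : 12 * ex (4 * μ) J ≤ 1 / 2 ^ q₁ := by
        refine le_trans ?_ hqe
        calc 12 * ex (4 * μ) J ≤ ex (-(μ / 2)) J * ex (4 * μ) J :=
              mul_le_mul_of_nonneg_right (hJ₄ J j4) (ex_pos _ _).le
          _ = ex (-(μ / 2) + 4 * μ) J := (ex_add _ _ _).symm
          _ ≤ ex μ J := ex_le (by linarith) J
      have s2 : ex ρ J ≤ ex (4 * μ) J := ex_le hμ3 J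
      have s3 : ex ε' J ≤ ex (4 * μ) J := ex_le (hμ3.trans hρε) J
      have s4 : ex ρ' J ≤ ex (4 * μ) J := ex_le hμ4 J
      have s5 : (2 : ℝ) ^ w / 2 ^ (G0 + q₁) = sc * (1 / 2 ^ q₁) := by
        rw [hsc, pow_add]
        field_simp
      have s6 : (2 : ℝ) ^ w / 2 ^ (G0 + q₁ + 2) = sc * (1 / 2 ^ q₁ / 4) := by
        rw [hsc, pow_add, pow_add]
        field_simp
        norm_num
      -- the size
      have hsize : |T i (ptr F J v.1)| ≤ 2 ^ e₀ := by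
        have t1 : |T i (ptr F J v.1)| ≤ |a (ptr F J v.1) 2| +
            sc * |(L (R (ptr F J v.1)) i).2| := by
          rw [hT]
          refine (abs_add_le _ _).trans ?_
          rw [abs_mul, abs_of_pos hsc0]
        have t2 : |(L (R (ptr F J v.1)) i).2| ≤ 2 * ex (-b) J := by
          rw [abs_le] at h1 i2 ⊢
          constructor <;> linarith [h1.1, h1.2, i2.1, i2.2]
        have t3 : |a (ptr F J v.1) 2| ≤ ex (-(μ / 4)) J := by
          refine ((ha _ A1).trans (exp_le_ex (by linarith) J)).trans (le_of_eq ?_)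
          congr 1
          ring
        have t4 : sc * |(L (R (ptr F J v.1)) i).2| ≤ 2 * ex (-(μ / 4 + b)) J := by
          calc sc * |(L (R (ptr F J v.1)) i).2| ≤ ex (-(μ / 8)) J * (2 * ex (-b) J) :=
                mul_le_mul hsc1 t2 (abs_nonneg _) (ex_pos _ _).le
            _ = 2 * ex (-(μ / 8) + -b) J := by
                rw [ex_add]
                ring
            _ ≤ 2 * ex (-(μ / 4 + b)) J :=
                mul_le_mul_of_nonneg_left (ex_le (by linarith) J) (by norm_num)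
        have t5 : ex (-(μ / 4)) J ≤ ex (-(μ / 4 + b)) J := ex_le (by linarith) J
        have t6 : 12 * ex (-(μ / 4 + b)) J ≤ 2 * 2 ^ e₀ := by
          refine le_trans ?_ he2
          calc 12 * ex (-(μ / 4 + b)) J ≤ ex (-(μ / 2)) J * ex (-(μ / 4 + b)) J :=
                mul_le_mul_of_nonneg_right (hJ₄ J j4) (ex_pos _ _).le
            _ = ex (-(μ / 2) + -(μ / 4 + b)) J := (ex_add _ _ _).symm
            _ ≤ ex (-(b + μ)) J := ex_le (by linarith) J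
        have t7 := ex_pos (-(μ / 4 + b)) J
        linarith
      refine ⟨⟨?_, hsize, ?_⟩, ?_⟩
      · have t1 : (1 : ℝ) ≤ 2 ^ e₀ := one_le_pow₀ (by norm_num)
        rw [pow_succ]
        show 1 + |T i (ptr F J v.1)| ≤ 2 ^ e₀ * 2
        linarith
      · rw [s5]
        have t1 : F.d v.1 (c 1) - T₀ i (ptr F J v.1) - T i (ptr F J v.1) * F.d v.1 (c 0) =
            sc * (Ez v.1 - (L (R (ptr F J v.1)) i).1 -
              (L (R (ptr F J v.1)) i).2 * F.d v.1 (c 0)) := by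
          have := hEzs v.1
          rw [hT, hT₀]
          linear_combination this
        show |F.d v.1 (c 1) - T₀ i (ptr F J v.1) - T i (ptr F J v.1) * F.d v.1 (c 0)| ≤ _
        rw [t1, abs_mul, abs_of_pos hsc0]
        refine mul_le_mul_of_nonneg_left ?_ hsc0.le
        have t2 : |(β - (L (R (ptr F J v.1)) i).2) * F.d v.1 (c 0)| ≤ ex ρ J := by
          rw [abs_mul]
          calc |β - (L (R (ptr F J v.1)) i).2| * |F.d v.1 (c 0)| ≤ ex ρ J * 1 :=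
                mul_le_mul i2 hd (abs_nonneg _) (ex_pos _ _).le
            _ = _ := mul_one _
        have t3 : Ez v.1 - (L (R (ptr F J v.1)) i).1 -
            (L (R (ptr F J v.1)) i).2 * F.d v.1 (c 0) =
            (Ez v.1 - α - β * F.d v.1 (c 0)) + (α - (L (R (ptr F J v.1)) i).1) +
              (β - (L (R (ptr F J v.1)) i).2) * F.d v.1 (c 0) := by ring
        rw [t3]
        have t4 := ex_pos (4 * μ) J
        rw [abs_le] at h6 i1 t2 ⊢
        constructor <;> linarith [h6.1, h6.2, i1.1, i1.2, t2.1, t2.2]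
      · rw [s6]
        have t1 : T i (ptr F J v.1) - T i' (ptr F J v.2) =
            sc * ((L (R (ptr F J v.1)) i).2 - (L (R (ptr F J v.2)) i').2) := by
          rw [hT]
          show a (ptr F J v.1) 2 + _ - (a (ptr F J v.2) 2 + _) = _
          rw [haeq]
          ring
        show |T i (ptr F J v.1) - T i' (ptr F J v.2)| ≤ _
        rw [t1, abs_mul, abs_of_pos hsc0]
        refine mul_le_mul_of_nonneg_left ?_ hsc0.le
        have t4 := ex_pos (4 * μ) J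
        rw [abs_le] at i2 i2' ⊢
        rw [abs_lt] at h8
        constructor <;> linarith [i2.1, i2.2, i2'.1, i2'.2, h8.1, h8.2]
    · exact Or.inl h9
  · have h6 := pe_ex' (Finset.univ : Finset (Fin 2 × Fin 2)) hnn (A := fun v =>
      ∃ x : Fin 2 × Fin 2,
      (1 + |T x.1 (ptr F J v.1)| ≤ 2 ^ (e₀ + 1) ∧ |T x.1 (ptr F J v.1)| ≤ 2 ^ e₀ ∧
        |F.d v.1 (c 1) - T₀ x.1 (ptr F J v.1) - T x.1 (ptr F J v.1) * F.d v.1 (c 0)| ≤
          2 ^ w / 2 ^ (G0 + q₁)) ∧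
        |T x.1 (ptr F J v.1) - T x.2 (ptr F J v.2)| ≤ 2 ^ w / 2 ^ (G0 + q₁ + 2))
      (fun x v => (1 + |T x.1 (ptr F J v.1)| ≤ 2 ^ (e₀ + 1) ∧ |T x.1 (ptr F J v.1)| ≤ 2 ^ e₀ ∧
        |F.d v.1 (c 1) - T₀ x.1 (ptr F J v.1) - T x.1 (ptr F J v.1) * F.d v.1 (c 0)| ≤
          2 ^ w / 2 ^ (G0 + q₁)) ∧
        |T x.1 (ptr F J v.1) - T x.2 (ptr F J v.2)| ≤ 2 ^ w / 2 ^ (G0 + q₁ + 2))
      (fun x _ => key x) (by
        rintro v - ⟨x, hx⟩
        exact ⟨x, Finset.mem_univ x, hx⟩)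
    have h7 : (((Finset.univ : Finset (Fin 2 × Fin 2)).card : ℕ) : ℝ) = 4 := by
      rw [Finset.card_univ, Fintype.card_prod, Fintype.card_fin]
      norm_num
    rw [h7] at h6
    linarith

end Pool.PLN26
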