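import Pool.Agent.H26.PLN.Two
import Pool.Agent.H1.PLN.Pur

/-!
# Planes through an exact point which are functions of the point

`two_list`: the lines on which a normalised conic is small are near one of two lines.
`triv_ok`: the trivial label of one coordinate. `noc_ev`, `noc`: a slope of the coordinate `c 1` over
the coordinate `c 0` which is a function of the exact point, to which the lines are tangent, is
not near a function of the line and of the window; two samples of the line have different slopes.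
`nocl`: the same for the lines on which a conic of the exact point is small. `e6`: such a line is not
nearly vertical.
-/

set_option autoImplicit false

namespace Pool.PLN26

open Finset Real MvPolynomial
open Pool.Agent.H49.Ent Pool.Agent.H32.Dense Pool.STK Pool.KA Pool.KSAT Pool.K2S Pool.PB Pool.S6C
open Pool.GEN Pool.CHT
open Pool.GRW (TmWn)
open Pool.LBT (ThrOf)
open Pool.KM7 (P2 P2_isLaw P2_swap P2_pos)
open Pool.PLN (qd Nq Ln1 Ln2 ThrStmt)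

/-! ### Lists of two lines -/

/-- **The lines on which the conic is small** are near one of two lines. -/
theorem two_list (h3 : ThrStmt) : ∃ (N : ℕ) (C : ℝ), 1 ≤ C ∧ ∀ (ε ρ Bd : ℝ), 0 ≤ ε → 0 < ρ →
    ρ ≤ 1 → 1 ≤ Bd → C * Bd ^ N * ε ≤ ρ ^ N → ∃ L : (Fin 6 → ℝ) → Fin 2 → ℝ × ℝ,
      ∀ R : Fin 6 → ℝ, Nq R → ∀ α β : ℝ, |α| ≤ Bd → |β| ≤ Bd → Ln1 R ε α β →
        ∃ i, |α - (L R i).1| ≤ ρ ∧ |β - (L R i).2| ≤ ρ := by
  classical
  obtain ⟨N, C, hC, h3⟩ := h3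
  refine ⟨N, C, hC, fun ε ρ Bd hε hρ hρ1 hBd hs => ?_⟩
  have key : ∀ R : Fin 6 → ℝ, ∃ L : Fin 2 → ℝ × ℝ, Nq R → ∀ α β : ℝ, |α| ≤ Bd → |β| ≤ Bd →
      Ln1 R ε α β → ∃ i, |α - (L i).1| ≤ ρ ∧ |β - (L i).2| ≤ ρ := by
    intro R
    by_cases h1 : ∃ x : ℝ × ℝ, |x.1| ≤ Bd ∧ |x.2| ≤ Bd ∧ Ln1 R ε x.1 x.2
    · obtain ⟨x, hx⟩ := h1
      by_cases h2 : ∃ y : ℝ × ℝ, (|y.1| ≤ Bd ∧ |y.2| ≤ Bd ∧ Ln1 R ε y.1 y.2) ∧
          ¬ (|y.1 - x.1| ≤ ρ ∧ |y.2 - x.2| ≤ ρ)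
      · obtain ⟨y, hy, hyx⟩ := h2
        refine ⟨![x, y], fun hR α β hα hβ hL => ?_⟩
        obtain ⟨i, j, hij, h4, h5⟩ := h3 R ![α, x.1, y.1] ![β, x.2, y.2] ε ρ Bd hR hε hρ hρ1 hBd
          (by
            intro i
            fin_cases i
            · exact ⟨hα, hβ, hL⟩
            · exact hx
            · exact hy) hs
        fin_cases i <;> fin_cases j
        · exact absurd rfl hij
        · exact ⟨0, by simpa using h4, by simpa using h5⟩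
        · exact ⟨1, by simpa using h4, by simpa using h5⟩
        · exact ⟨0, by simpa [abs_sub_comm] using h4, by simpa [abs_sub_comm] using h5⟩
        · exact absurd rfl hij
        · exact absurd ⟨by simpa [abs_sub_comm] using h4, by simpa [abs_sub_comm] using h5⟩ hyx
        · exact ⟨1, by simpa [abs_sub_comm] using h4, by simpa [abs_sub_comm] using h5⟩
        · exact absurd ⟨by simpa using h4, by simpa using h5⟩ hyx
        · exact absurd rfl hij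
      · refine ⟨![x, x], fun _ α β hα hβ hL => ⟨0, ?_⟩⟩
        by_contra h4
        exact h2 ⟨(α, β), ⟨hα, hβ, hL⟩, by simpa using h4⟩
    · exact ⟨fun _ => 0, fun _ α β hα hβ hL => absurd ⟨(α, β), hα, hβ, hL⟩ h1⟩
  choose L hL using key
  exact ⟨L, hL⟩

/-- The conic with the variables exchanged. -/
def sw (R : Fin 6 → ℝ) : Fin 6 → ℝ := ![R 0, R 2, R 1, R 5, R 4, R 3]

theorem qd_sw (R : Fin 6 → ℝ) (x y : ℝ) : qd (sw R) x y = qd R y x := by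
  unfold qd sw
  simp
  ring

theorem nq_sw {R : Fin 6 → ℝ} (h : Nq R) : Nq (sw R) := by
  obtain ⟨h1, i, hi⟩ := h
  constructor
  · intro i
    fin_cases i <;> simp [sw, h1]
  · fin_cases i
    · exact ⟨0, by simpa [sw] using hi⟩
    · exact ⟨2, by simpa [sw] using hi⟩
    · exact ⟨1, by simpa [sw] using hi⟩
    · exact ⟨5, by simpa [sw] using hi⟩
    · exact ⟨4, by simpa [sw] using hi⟩
    · exact ⟨3, by simpa [sw] using hi⟩

theorem ln_sw {R : Fin 6 → ℝ} {ε α β : ℝ} (h : Ln2 R ε α β) : Ln1 (sw R) ε α β := by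
  intro x hx
  rw [qd_sw]
  exact h x hx

/-! ### The trivial label of one coordinate -/

variable {m J : ℕ}

/-- The trivial label: a constant. -/
noncomputable def trG (c : ℕ → Fin m) {F : Fam m J} (y : PtT F) (i : ℕ) :
    MvPolynomial (Option (Fin m)) ℝ := C ((y.1 (c i) : ℝ) / 2 ^ J)

/-- The trivial label, line side. -/
noncomputable def trH (c : ℕ → Fin m) (w : ℕ) {F : Fam m J} (s : LnT F) (i : ℕ) :
    MvPolynomial (Option (Fin m)) ℝ := C (s.1.1 (c i) + (s.2.2 : ℝ) / 2 ^ w * s.1.2 (c i))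

/-- **The trivial label.** -/
theorem triv_ok (F : Fam m J) (c : ℕ → Fin m) (r : ℕ) (K : ℕ → ℕ) (a e : ℕ) {w P : ℕ}
    (hP : P + 1 ≤ w) (hw : w ≤ J) (A : F.Ω → Prop) :
    ChOK F c r K a w e (fun _ => P) A (fun y i => trG c y i) (fun s i => trH c w s i) := by
  have e1 : (1 : ℝ) / 2 ^ J ≤ 1 / 2 ^ (P + 1) := inv_mono (hP.trans hw)
  have e2 : (1 : ℝ) / 2 ^ w ≤ 1 / 2 ^ (P + 1) := inv_mono hP
  have e3 : (1 : ℝ) / 2 ^ (P + 1) = 1 / 2 ^ P / 2 := by rw [pow_succ]; field_simp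
  have e4 : (0 : ℝ) < 1 / 2 ^ P := by positivity
  unfold trG trH
  refine ⟨fun y i => ?_, fun s i => ?_, fun y i b b' _ _ => ?_, fun s i b b' _ _ => ?_,
    fun ω _ i _ => ?_, fun ω _ i _ b _ => ?_, fun ω _ i _ b _ l _ => ?_⟩
  · rw [totalDegree_C]
    exact Nat.zero_le _
  · rw [totalDegree_C]
    exact Nat.zero_le _
  · rw [eval_C, eval_C]
  · rw [eval_C, eval_C]
  · have h1 := Pool.LBN.near_pt F (c i) ω
    rw [eval_C]
    change |F.x ω (c i) - ((F.X J ω (c i) : ℤ) : ℝ) / 2 ^ J| ≤ 1 / 2 ^ P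
    linarith
  · have h1 := Pool.LBN.near_pt F (c i) ω
    have h2 := Pool.LBN.near_win F (c i) hw ω
    rw [eval_C, eval_C]
    change |((F.X J ω (c i) : ℤ) : ℝ) / 2 ^ J - F.x1 w ω (c i)| ≤ 1 / 2 ^ P
    rw [abs_le] at h1 h2 ⊢
    constructor <;> linarith [h1.1, h1.2, h2.1, h2.2]
  · rw [pderiv_C, map_zero, abs_zero]
    positivity

/-- The natural box of the trivial label is near the path. -/
theorem triv_box {F : Fam m J} {c : ℕ → Fin m} {w : ℕ} (hw1 : 1 ≤ w) (hw : w ≤ J) (ω : F.Ω)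
    {b : Option (Fin m) → ℝ}
    (hb : NBx c (fun i => trG c (ptr F J ω) i) (fun _ => w - 1) w (F.t ω) 1 b) :
    |b (some (c 0)) - Pool.JVE.pth F ω (b none) (c 0)| ≤ 4 / 2 ^ w := by
  have h1 := hb.1
  have h2 := hb.2 0 one_pos
  have h3 := Pool.LBN.near_pt F (c 0) ω
  unfold trG at h2
  simp only [eval_C] at h2
  have e1 : (1 : ℝ) / 2 ^ J ≤ 1 / 2 ^ w := inv_mono hw
  have e2 : (1 : ℝ) / 2 ^ (w - 1) = 2 * (1 / 2 ^ w) := by
    rw [show (2 : ℝ) ^ w = 2 ^ (w - 1) * 2 by rw [← pow_succ]; congr 1; omega]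
    field_simp
  have e3 : (4 : ℝ) / 2 ^ w = 4 * (1 / 2 ^ w) := by ring
  have e4 : ((ptr F J ω).1 (c 0) : ℝ) = ((F.X J ω (c 0) : ℤ) : ℝ) := rfl
  rw [e4] at h2
  rw [e2] at h2
  have h4 : |(b none - F.t ω) * F.d ω (c 0)| ≤ 1 / 2 ^ w := by
    rw [abs_mul]
    calc |b none - F.t ω| * |F.d ω (c 0)| ≤ (1 / 2 ^ w) * 1 :=
          mul_le_mul h1 (F.dir ω (c 0)) (abs_nonneg _) (by positivity)
      _ = _ := mul_one _
  have e5 : b (some (c 0)) - Pool.JVE.pth F ω (b none) (c 0) =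
      (b (some (c 0)) - ((F.X J ω (c 0) : ℤ) : ℝ) / 2 ^ J) -
        (F.x ω (c 0) - ((F.X J ω (c 0) : ℤ) : ℝ) / 2 ^ J) -
        (b none - F.t ω) * F.d ω (c 0) := by
    unfold Pool.JVE.pth
    have hx : F.x ω (c 0) = F.u ω (c 0) + F.t ω * F.d ω (c 0) := rfl
    rw [hx]
    ring
  rw [e5, e3]
  rw [abs_le] at h2 h3 h4 ⊢
  constructor <;> linarith [h2.1, h2.2, h3.1, h3.2, h4.1, h4.2]

/-! ### Slopes -/

variable {θ : ℝ} {S : PCl m} {P : List (Fin m) × Fin m → ℝ → ℝ → ℝ}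

/-- **A slope of the exact point which is near a function of the line**: a small event. -/
theorem noc_ev (hP : ThrOf (chsys m θ) S P) (c : ℕ → Fin m) (W : ℚ) (e h : ℝ) (hW0 : 0 ≤ W)
    (hW1 : W ≤ 1) (he : e < θ * W) (hh : 0 < h) (h1 : bet P c 1 W W + h ≤ 1) :
    ∃ δ : ℝ, 0 < δ ∧ Bas S (fun J F A => ∀ (w e₀ v p Q : ℕ) (T T₀ : PtT F → ℝ)
      (T' : LnT F → ℝ), 1 ≤ w → w ≤ ⌊(W : ℝ) * J⌋₊ → e₀ ≤ ⌊e * J⌋₊ → p + 2 ≤ Q → Q + v ≤ J →
      ⌊(bet P c 1 W W + h) * J⌋₊ + w ≤ p + ⌊(W : ℝ) * J⌋₊ →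
      ∀ (B : F.Ω → Prop), Sub B A → (∀ ω, B ω → 1 + |T (ptr F J ω)| ≤ 2 ^ v) →
      (∀ ω, B ω → |T (ptr F J ω)| ≤ 2 ^ e₀) →
      (∀ ω, B ω → |F.d ω (c 1) - T₀ (ptr F J ω) - T (ptr F J ω) * F.d ω (c 0)| ≤
        2 ^ w / 2 ^ Q) →
      (∀ ω, B ω → |T (ptr F J ω) - T' (slam F w ω)| ≤ 2 ^ w / 2 ^ (Q + 2)) →
      Pe F.p B ≤ Real.exp (-(δ * J)) * Pe F.p A) := by
  have hc : Set.InjOn c (Set.Iio 1) := by
    intro x hx y hy _
    have h2 := Set.mem_Iio.1 hx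
    have h3 := Set.mem_Iio.1 hy
    omega
  obtain ⟨δ, hδ, τ, hτ, J₁, hev⟩ := Pool.JVE.jv_ev hP c 1 hc 1 le_rfl W e h hW0 hW1 he hh h1
  refine ⟨δ, hδ, τ, hτ, J₁, ?_⟩
  intro J hJ F A hA w e₀ v p Q T T₀ T' k0 k1 k2 k3 k4 k5 B hBA hsiz hlip hvel hcl
  have hJ0 : (0 : ℝ) ≤ J := Nat.cast_nonneg J
  have hwJ : w ≤ J := by
    refine k1.trans (Nat.floor_le_of_le ?_)
    have : (W : ℝ) ≤ 1 := by exact_mod_cast hW1
    nlinarith
  have hch := triv_ok F c 1 (fun _ => 0) w e₀ (P := w - 1) (by omega) hwJ B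
  refine hev J hJ F A hA w e₀ v p Q (fun _ => 0) (fun _ => w - 1) (fun y i => trG c y i)
    (fun s i => trH c w s i) (fun y _ => T y) T₀ k1 k2 (fun _ => Nat.zero_le _)
    (fun _ _ => by omega) k3 k4 k5 B hBA hch ⟨fun ω hω => ?_, fun ω hω l hl => ?_,
      fun ω hω => ?_⟩ (fun s _ => T' s) fun ω hω b hb => ?_
  · rw [Finset.sum_range_one]
    exact hsiz ω hω
  · exact (hlip ω hω).trans (pow_le_pow_right₀ (by norm_num) (by omega))
  · rw [Finset.sum_range_one]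
    exact hvel ω hω
  · rw [Finset.sum_range_one, abs_mul]
    have h2 := triv_box k0 hwJ ω hb
    have h3 := hcl ω hω
    have hp : (0 : ℝ) < 2 ^ w := by positivity
    calc |T (ptr F J ω) - T' (slam F w ω)| *
          |b (some (c 0)) - Pool.JVE.pth F ω (b none) (c 0)| ≤
          (2 ^ w / 2 ^ (Q + 2)) * (4 / 2 ^ w) :=
        mul_le_mul h3 h2 (abs_nonneg _) (by positivity)
      _ = 1 / 2 ^ Q := by
        rw [pow_add]
        field_simp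
        norm_num

/-- **Two samples of the line have different slopes.** -/
theorem noc (hP : ThrOf (chsys m θ) S P) (c : ℕ → Fin m) (W : ℚ) (e h : ℝ) (hW0 : 0 ≤ W)
    (hW1 : W ≤ 1) (he : e < θ * W) (hh : 0 < h) (h1 : bet P c 1 W W + h ≤ 1) :
    ∃ δ : ℝ, 0 < δ ∧ Bas S (fun J F A => ∀ (w e₀ v p Q : ℕ) (T T₀ : PtT F → ℝ)
      (T1 : F.Ω → ℝ), 1 ≤ w → w ≤ ⌊(W : ℝ) * J⌋₊ → e₀ ≤ ⌊e * J⌋₊ → p + 2 ≤ Q → Q + v ≤ J →
      ⌊(bet P c 1 W W + h) * J⌋₊ + w ≤ p + ⌊(W : ℝ) * J⌋₊ → ∀ (q : F.Ω → ℝ) (M : ℝ),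
      IsLaw q → 0 ≤ M → 0 < Pe F.p A → (∀ ω, 0 < q ω → A ω) →
      (∀ ω, q ω * Pe F.p A ≤ M * F.p ω) →
      Pe (P2 q (slam F w)) (fun x => (1 + |T (ptr F J x.1)| ≤ 2 ^ v ∧ |T (ptr F J x.1)| ≤ 2 ^ e₀ ∧
        |F.d x.1 (c 1) - T₀ (ptr F J x.1) - T (ptr F J x.1) * F.d x.1 (c 0)| ≤ 2 ^ w / 2 ^ Q) ∧
        |T (ptr F J x.1) - T1 x.2| ≤ 2 ^ w / 2 ^ (Q + 2)) ≤ M * Real.exp (-(δ * J))) := by
  obtain ⟨δ, hδ, τ, hτ, J₁, hev⟩ := noc_ev hP c W e h hW0 hW1 he hh h1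
  refine ⟨δ, hδ, τ, hτ, J₁, ?_⟩
  intro J hJ F A hA w e₀ v p Q T T₀ T1 k0 k1 k2 k3 k4 k5 q M hq hM hPA hqA hqM
  refine pair_of (ε := Real.exp (-(δ * J))) hq hM hPA hqA hqM (slam F w)
    (fun ω ω' => (1 + |T (ptr F J ω)| ≤ 2 ^ v ∧ |T (ptr F J ω)| ≤ 2 ^ e₀ ∧
      |F.d ω (c 1) - T₀ (ptr F J ω) - T (ptr F J ω) * F.d ω (c 0)| ≤ 2 ^ w / 2 ^ Q) ∧
      |T (ptr F J ω) - T1 ω'| ≤ 2 ^ w / 2 ^ (Q + 2)) fun sel => ?_
  exact hev J hJ F A hA w e₀ v p Q T T₀ (fun s => T1 (sel s)) k0 k1 k2 k3 k4 k5 _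
    (fun ω hω => hω.1) (fun ω hω => hω.2.1.1) (fun ω hω => hω.2.1.2.1)
    (fun ω hω => hω.2.1.2.2) fun ω hω => hω.2.2

end Pool.PLN26
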